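import Pool.Agent.W98.OS.Defs

set_option autoImplicit false

namespace Pool.Agent.W98.OS

open Pool.Agent.Helper929 Matrix

theorem pf_zero_row {n : ℕ} (A : Matrix (Fin n) (Fin n) ℚ) (hA : ∀ i j, A i j = - A j i)
    (q : Fin n) (hq : ∀ j, A q j = 0) : pf n A = 0 := by
  have h := pf_gram A hA (Matrix.diagonal fun i => if i = q then 0 else 1)
  have h1 : (Matrix.diagonal fun i => if i = q then (0 : ℚ) else 1) * A *
      (Matrix.diagonal fun i => if i = q then (0 : ℚ) else 1)ᵀ = A := by
    ext i j
    rw [Matrix.diagonal_transpose, Matrix.mul_diagonal, Matrix.diagonal_mul]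
    by_cases hi : i = q
    · subst hi; simp [hq]
    · by_cases hj : j = q
      · subst hj
        rw [hA i j, hq]
        simp
      · simp [hi, hj]
  rw [h1, Matrix.det_diagonal] at h
  rw [h, Finset.prod_eq_zero (Finset.mem_univ q) (by simp), zero_mul]

theorem pf_succ_succ {R : Type*} [CommRing R] (m : ℕ) (A : Matrix (Fin (m + 2)) (Fin (m + 2)) R) :
    pf (m + 2) A = ∑ j : Fin (m + 1), (-1) ^ (j : ℕ) * A 0 j.succ *
      pf m (A.submatrix (fun k => (j.succAbove k).succ) (fun k => (j.succAbove k).succ)) := by
  simp only [pf]

theorem T_BLK : S_BLK := by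
  intro m
  induction m using Nat.strong_induction_on with
  | _ m ih =>
    intro A hA h0
    rcases m with _ | _ | m
    · simp [pf]
    · rw [pf_succ_succ]
      simp [pf]
    · have hq : ∀ i : Fin (m + 2), A (Fin.last (m + 2)).castSucc i.castSucc.castSucc = 0 := by
        intro i
        rw [hA, h0]; simp
      have hqq : A (Fin.last (m + 2)).castSucc (Fin.last (m + 2)).castSucc = 0 := by
        have := hA (Fin.last (m + 2)).castSucc (Fin.last (m + 2)).castSucc
        linarith
      rw [pf_succ_succ, Fin.sum_univ_castSucc, Fin.sum_univ_castSucc]
      -- the last two terms vanish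
      have t1 : A 0 (Fin.last (m + 1)).castSucc.succ = 0 := by
        have h := h0 0
        have e1 : (0 : Fin (m + 2)).castSucc.castSucc = (0 : Fin (m + 4)) := rfl
        have e2 : (Fin.last (m + 2)).castSucc = (Fin.last (m + 1)).castSucc.succ := rfl
        rw [e1, e2] at h
        exact h
      have t2 : pf (m + 2) (A.submatrix (fun k => ((Fin.last (m + 2)).succAbove k).succ)
          (fun k => ((Fin.last (m + 2)).succAbove k).succ)) = 0 := by
        apply pf_zero_row _ _ (Fin.last (m + 1))
        · intro j
          rw [Matrix.submatrix_apply]
          rw [Fin.succAbove_last]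
          have e3 : (Fin.last (m + 1)).castSucc.succ = (Fin.last (m + 2)).castSucc := rfl
          rw [e3]
          refine Fin.lastCases ?_ (fun j' => ?_) j
          · rw [e3]; exact hqq
          · have := hq j'.succ
            exact this
        · intro i j
          exact hA _ _
      rw [t1, t2, mul_zero, mul_zero, zero_mul, add_zero, add_zero]
      rw [pf_succ_succ, Finset.mul_sum]
      apply Finset.sum_congr rfl
      intro j _
      have hv : ∀ k : Fin (m + 2), ((j.castSucc.castSucc.succAbove k).succ : ℕ) =
          (if (k : ℕ) < (j : ℕ) then (k : ℕ) else (k : ℕ) + 1) + 1 := by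
        intro k
        rw [Fin.val_succ]
        unfold Fin.succAbove
        by_cases h : (k : ℕ) < (j : ℕ)
        · rw [if_pos (by rw [Fin.lt_def]; exact h), if_pos h]
          rfl
        · rw [if_neg (by rw [Fin.lt_def]; exact h), if_neg h]
          rfl
      have hv2 : ∀ k : Fin m, ((j.succAbove k).succ : ℕ) =
          (if (k : ℕ) < (j : ℕ) then (k : ℕ) else (k : ℕ) + 1) + 1 := by
        intro k
        rw [Fin.val_succ]
        unfold Fin.succAbove
        by_cases h : (k : ℕ) < (j : ℕ)
        · rw [if_pos (by rw [Fin.lt_def]; exact h), if_pos h]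
          rfl
        · rw [if_neg (by rw [Fin.lt_def]; exact h), if_neg h]
          rfl
      have hj := j.isLt
      have e4 : (j.castSucc.castSucc.succAbove (Fin.last m).castSucc).succ =
          (Fin.last (m + 2)).castSucc := by
        apply Fin.ext
        rw [hv]
        simp only [Fin.val_castSucc, Fin.val_last]
        rw [if_neg (by omega)]
      have e5 : (j.castSucc.castSucc.succAbove (Fin.last (m + 1))).succ =
          Fin.last (m + 3) := by
        apply Fin.ext
        rw [hv]
        simp only [Fin.val_last]
        rw [if_neg (by omega)]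
      have h3 := ih m (by omega) (A.submatrix (fun k => (j.castSucc.castSucc.succAbove k).succ)
        (fun k => (j.castSucc.castSucc.succAbove k).succ)) (by
          intro i k
          exact hA _ _) (by
          intro i
          rw [Matrix.submatrix_apply, e4]
          have hi := i.isLt
          have e6 : (j.castSucc.castSucc.succAbove i.castSucc.castSucc).succ =
              (⟨(if (i : ℕ) < (j : ℕ) then (i : ℕ) else (i : ℕ) + 1) + 1, by
                split_ifs <;> omega⟩ : Fin (m + 2)).castSucc.castSucc := by
            apply Fin.ext
            rw [hv]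
            rfl
          rw [e6]
          exact h0 _)
      rw [h3]
      have e7 : (A.submatrix (fun k => (j.castSucc.castSucc.succAbove k).succ)
        (fun k => (j.castSucc.castSucc.succAbove k).succ)).submatrix
        (fun i : Fin m => i.castSucc.castSucc) (fun i : Fin m => i.castSucc.castSucc) =
        ((A.submatrix (fun i : Fin (m + 2) => i.castSucc.castSucc)
        (fun i : Fin (m + 2) => i.castSucc.castSucc)).submatrix
          (fun k => (j.succAbove k).succ) (fun k => (j.succAbove k).succ)) := by
        have e8 : ∀ k : Fin m, (j.castSucc.castSucc.succAbove k.castSucc.castSucc).succ =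
            (j.succAbove k).succ.castSucc.castSucc := by
          intro k
          apply Fin.ext
          rw [hv, Fin.val_castSucc, Fin.val_castSucc]
          exact (hv2 k).symm
        ext a b
        simp only [Matrix.submatrix_apply, e8]
      rw [e7, Matrix.submatrix_apply, e4, e5, Matrix.submatrix_apply]
      have e9 : A (0 : Fin (m + 2)).castSucc.castSucc j.succ.castSucc.castSucc =
          A 0 j.castSucc.castSucc.succ := rfl
      rw [e9]
      simp only [Fin.val_castSucc]
      ring

end Pool.Agent.W98.OS
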