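import Pool.Agent.W98.OS.Defs

set_option autoImplicit false

namespace Pool.Agent.W98.OS

section lin

variable {R : Type*} [CommRing R]

theorem row_add (x : R) : ∀ (h : Bool) (ys : List R) (vs : List Bool) (F G : List Bool → R),
    row x h ys vs (fun u => F u + G u) = row x h ys vs F + row x h ys vs G
  | h, [], [], F, G => by cases h <;> simp [row]
  | h, [], _ :: _, F, G => by simp [row]
  | h, _ :: _, [], F, G => by simp [row]
  | false, y :: ys, false :: vs, F, G => by
    simp only [row]
    rw [row_add x false ys vs, row_add x true ys vs]
    ring
  | true, y :: ys, true :: vs, F, G => by
    simp only [row]
    rw [row_add x false ys vs, row_add x true ys vs]
    ring
  | true, y :: ys, false :: vs, F, G => by
    simp only [row]
    rw [row_add x true ys vs]
    ring
  | false, y :: ys, true :: vs, F, G => by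
    simp only [row]
    rw [row_add x false ys vs]
    ring

theorem row_mul (x k : R) : ∀ (h : Bool) (ys : List R) (vs : List Bool) (F : List Bool → R),
    row x h ys vs (fun u => k * F u) = k * row x h ys vs F
  | h, [], [], F => by cases h <;> simp [row]
  | h, [], _ :: _, F => by simp [row]
  | h, _ :: _, [], F => by simp [row]
  | false, y :: ys, false :: vs, F => by
    simp only [row]
    rw [row_mul x k false ys vs, row_mul x k true ys vs]
    ring
  | true, y :: ys, true :: vs, F => by
    simp only [row]
    rw [row_mul x k false ys vs, row_mul x k true ys vs]
    ring
  | true, y :: ys, false :: vs, F => by
    simp only [row]
    rw [row_mul x k true ys vs]
    ring
  | false, y :: ys, true :: vs, F => by
    simp only [row]
    rw [row_mul x k false ys vs]
    ring

/-- vertex weights -/
def wt (x y : R) : Bool → Bool → Bool → Bool → R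
  | false, false, false, false => 1 - x - y
  | false, false, true, true => 1
  | true, true, true, true => 1 - x - y
  | true, true, false, false => kap x * kap y
  | true, false, true, false => 1 - x * y
  | false, true, false, true => 1 - x * y
  | _, _, _, _ => 0

theorem row2_aux (a b : R) : ∀ (ys : List R) (v : List Bool) (F : List Bool → R) (s t : Bool),
    v.length = ys.length →
    opR a b (fun s' t' => row b s' ys v (fun u => row a t' ys u F)) s t =
      (1 - b + a * b) * row a s ys v (fun u => row b t ys u F)
  | [], [], F, s, t, _ => by
    cases s <;> cases t <;> simp [opR, row]
  | [], _ :: _, F, s, t, h => by simp at h
  | _ :: _, [], F, s, t, h => by simp at h
  | y :: ys, c :: v, F, s, t, h => by
    have hl : v.length = ys.length := by simpa using h
    have ih := fun (e s2 t2 : Bool) => row2_aux a b ys v (fun w => F (e :: w)) s2 t2 hl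
    have i1 := ih false false false
    have i2 := ih false false true
    have i3 := ih false true false
    have i4 := ih false true true
    have i5 := ih true false false
    have i6 := ih true false true
    have i7 := ih true true false
    have i8 := ih true true true
    simp only [opR] at i1 i2 i3 i4 i5 i6 i7 i8
    cases s <;> cases t <;> cases c <;>
      simp only [opR, row, row_add, row_mul]
    · linear_combination (norm := (simp only [wt, kap]; ring1))
        (wt a y false false false false * wt b y false false false false + wt a y false false false true * wt b y false true false false) * i1 +
        (wt a y false false false false * wt b y false false true false + wt a y false false false true * wt b y false true true false) * i2 +
        (wt a y false false true false * wt b y false false false false + wt a y false false true true * wt b y false true false false) * i3 +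
        (wt a y false false true false * wt b y false false true false + wt a y false false true true * wt b y false true true false) * i4 +
        (wt a y false false false false * wt b y false false false true + wt a y false false false true * wt b y false true false true) * i5 +
        (wt a y false false false false * wt b y false false true true + wt a y false false false true * wt b y false true true true) * i6 +
        (wt a y false false true false * wt b y false false false true + wt a y false false true true * wt b y false true false true) * i7 +
        (wt a y false false true false * wt b y false false true true + wt a y false false true true * wt b y false true true true) * i8
    · linear_combination (norm := (simp only [wt, kap]; ring1))
        (wt a y false true false false * wt b y false false false false + wt a y false true false true * wt b y false true false false) * i1 +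
        (wt a y false true false false * wt b y false false true false + wt a y false true false true * wt b y false true true false) * i2 +
        (wt a y false true true false * wt b y false false false false + wt a y false true true true * wt b y false true false false) * i3 +
        (wt a y false true true false * wt b y false false true false + wt a y false true true true * wt b y false true true false) * i4 +
        (wt a y false true false false * wt b y false false false true + wt a y false true false true * wt b y false true false true) * i5 +
        (wt a y false true false false * wt b y false false true true + wt a y false true false true * wt b y false true true true) * i6 +
        (wt a y false true true false * wt b y false false false true + wt a y false true true true * wt b y false true false true) * i7 +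
        (wt a y false true true false * wt b y false false true true + wt a y false true true true * wt b y false true true true) * i8
    · linear_combination (norm := (simp only [wt, kap]; ring1))
        (wt a y false false false false * wt b y true false false false + wt a y false false false true * wt b y true true false false) * i1 +
        (wt a y false false false false * wt b y true false true false + wt a y false false false true * wt b y true true true false) * i2 +
        (wt a y false false true false * wt b y true false false false + wt a y false false true true * wt b y true true false false) * i3 +
        (wt a y false false true false * wt b y true false true false + wt a y false false true true * wt b y true true true false) * i4 +
        (wt a y false false false false * wt b y true false false true + wt a y false false false true * wt b y true true false true) * i5 +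
        (wt a y false false false false * wt b y true false true true + wt a y false false false true * wt b y true true true true) * i6 +
        (wt a y false false true false * wt b y true false false true + wt a y false false true true * wt b y true true false true) * i7 +
        (wt a y false false true false * wt b y true false true true + wt a y false false true true * wt b y true true true true) * i8
    · linear_combination (norm := (simp only [wt, kap]; ring1))
        (wt a y false true false false * wt b y true false false false + wt a y false true false true * wt b y true true false false) * i1 +
        (wt a y false true false false * wt b y true false true false + wt a y false true false true * wt b y true true true false) * i2 +
        (wt a y false true true false * wt b y true false false false + wt a y false true true true * wt b y true true false false) * i3 +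
        (wt a y false true true false * wt b y true false true false + wt a y false true true true * wt b y true true true false) * i4 +
        (wt a y false true false false * wt b y true false false true + wt a y false true false true * wt b y true true false true) * i5 +
        (wt a y false true false false * wt b y true false true true + wt a y false true false true * wt b y true true true true) * i6 +
        (wt a y false true true false * wt b y true false false true + wt a y false true true true * wt b y true true false true) * i7 +
        (wt a y false true true false * wt b y true false true true + wt a y false true true true * wt b y true true true true) * i8
    · linear_combination (norm := (simp only [wt, kap]; ring1))
        (wt a y true false false false * wt b y false false false false + wt a y true false false true * wt b y false true false false) * i1 +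
        (wt a y true false false false * wt b y false false true false + wt a y true false false true * wt b y false true true false) * i2 +
        (wt a y true false true false * wt b y false false false false + wt a y true false true true * wt b y false true false false) * i3 +
        (wt a y true false true false * wt b y false false true false + wt a y true false true true * wt b y false true true false) * i4 +
        (wt a y true false false false * wt b y false false false true + wt a y true false false true * wt b y false true false true) * i5 +
        (wt a y true false false false * wt b y false false true true + wt a y true false false true * wt b y false true true true) * i6 +
        (wt a y true false true false * wt b y false false false true + wt a y true false true true * wt b y false true false true) * i7 +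
        (wt a y true false true false * wt b y false false true true + wt a y true false true true * wt b y false true true true) * i8
    · linear_combination (norm := (simp only [wt, kap]; ring1))
        (wt a y true true false false * wt b y false false false false + wt a y true true false true * wt b y false true false false) * i1 +
        (wt a y true true false false * wt b y false false true false + wt a y true true false true * wt b y false true true false) * i2 +
        (wt a y true true true false * wt b y false false false false + wt a y true true true true * wt b y false true false false) * i3 +
        (wt a y true true true false * wt b y false false true false + wt a y true true true true * wt b y false true true false) * i4 +
        (wt a y true true false false * wt b y false false false true + wt a y true true false true * wt b y false true false true) * i5 +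
        (wt a y true true false false * wt b y false false true true + wt a y true true false true * wt b y false true true true) * i6 +
        (wt a y true true true false * wt b y false false false true + wt a y true true true true * wt b y false true false true) * i7 +
        (wt a y true true true false * wt b y false false true true + wt a y true true true true * wt b y false true true true) * i8
    · linear_combination (norm := (simp only [wt, kap]; ring1))
        (wt a y true false false false * wt b y true false false false + wt a y true false false true * wt b y true true false false) * i1 +
        (wt a y true false false false * wt b y true false true false + wt a y true false false true * wt b y true true true false) * i2 +
        (wt a y true false true false * wt b y true false false false + wt a y true false true true * wt b y true true false false) * i3 +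
        (wt a y true false true false * wt b y true false true false + wt a y true false true true * wt b y true true true false) * i4 +
        (wt a y true false false false * wt b y true false false true + wt a y true false false true * wt b y true true false true) * i5 +
        (wt a y true false false false * wt b y true false true true + wt a y true false false true * wt b y true true true true) * i6 +
        (wt a y true false true false * wt b y true false false true + wt a y true false true true * wt b y true true false true) * i7 +
        (wt a y true false true false * wt b y true false true true + wt a y true false true true * wt b y true true true true) * i8
    · linear_combination (norm := (simp only [wt, kap]; ring1))
        (wt a y true true false false * wt b y true false false false + wt a y true true false true * wt b y true true false false) * i1 +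
        (wt a y true true false false * wt b y true false true false + wt a y true true false true * wt b y true true true false) * i2 +
        (wt a y true true true false * wt b y true false false false + wt a y true true true true * wt b y true true false false) * i3 +
        (wt a y true true true false * wt b y true false true false + wt a y true true true true * wt b y true true true false) * i4 +
        (wt a y true true false false * wt b y true false false true + wt a y true true false true * wt b y true true false true) * i5 +
        (wt a y true true false false * wt b y true false true true + wt a y true true false true * wt b y true true true true) * i6 +
        (wt a y true true true false * wt b y true false false true + wt a y true true true true * wt b y true true false true) * i7 +
        (wt a y true true true false * wt b y true false true true + wt a y true true true true * wt b y true true true true) * i8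

end lin

theorem T_ROW2 : S_ROW2 := by
  intro R _ a b ys F v s t h
  exact row2_aux a b ys v F s t h

end Pool.Agent.W98.OS
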