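import Pool.Agent.W98.OS.Final
import Pool.Agent.W98.OS.ROW2
import Pool.Agent.W98.OS.BLK
import Pool.Agent.W111.OS.EXCH
import Pool.Agent.W111.OS.PERM
import Pool.Agent.W287.OS.INTE
import Pool.Agent.W287.OS.LIM
import Pool.Agent.W351.OS.COL
import Pool.Agent.W351.OS.DEG
import Pool.Agent.W351.OS.REM
import Pool.Agent.W358.OS.ALT
import Pool.Agent.W358.OS.FRZ
import Pool.Agent.W358.OS.PFK
import Pool.Agent.W362.OS.FIN
import Pool.Agent.W362.OS.INTO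
import Pool.Agent.W465.OS.COEF
import Pool.Agent.W465.OS.SER
import Pool.Agent.W465.OS.VC
import Pool.Agent.W479.OS.PE
import Pool.Agent.W597.OS.FEW
import Pool.Agent.W597.OS.KER
import Pool.Agent.W597.OS.L
import Pool.Agent.W597.OS.U
import Pool.Agent.W932.OS.M
import Pool.Agent.W932.OS.M0

set_option autoImplicit false

namespace Pool.Agent.W98.OS

theorem perm : S_PERM := Pool.Agent.W111.OS.T_PERM (Pool.Agent.W111.OS.T_EXCH
  Pool.Agent.W351.OS.T_COL T_ROW2)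

theorem inte : S_INTE := Pool.Agent.W287.OS.T_INTE perm Pool.Agent.W351.OS.T_DEG
  Pool.Agent.W358.OS.T_FRZ Pool.Agent.W358.OS.T_ALT Pool.Agent.W351.OS.T_REM

theorem into : S_INTO := Pool.Agent.W362.OS.INTO.T_INTO inte perm Pool.Agent.W351.OS.T_DEG
  Pool.Agent.W351.OS.T_HALF Pool.Agent.W358.OS.T_FRZ Pool.Agent.W358.OS.T_ALT
  Pool.Agent.W351.OS.T_REM

theorem lim : S_LIM := Pool.Agent.W287.OS.T_LIM into Pool.Agent.W465.OS.T_SER
  Pool.Agent.W465.OS.T_COEF Pool.Agent.W465.OS.T_VC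

theorem ker : S_KER := Pool.Agent.W597.OS.T_KER (Pool.Agent.W597.OS.T_L
  Pool.Agent.W932.OS.T_NV (Pool.Agent.W932.OS.T_M Pool.Agent.W932.OS.T_M0)
  Pool.Agent.W479.OS.T_PE (Pool.Agent.W597.OS.T_U Pool.Agent.W597.OS.T_FEW))
  Pool.Agent.W479.OS.T_PE

theorem pfk : S_PFK := Pool.Agent.W358.OS.T_PFK ker T_BLK

/-- The number of odd order off-diagonally symmetric alternating sign matrices. -/
theorem all :
    ∀ n : ℕ, 1 ≤ n →
      ((Nat.card {A : Matrix (Fin (2 * n + 1)) (Fin (2 * n + 1)) ℤ //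
          (∀ i j, A i j = -1 ∨ A i j = 0 ∨ A i j = 1) ∧
          (∀ i k, (∑ j ∈ Finset.Iic k, A i j) = 0 ∨ (∑ j ∈ Finset.Iic k, A i j) = 1) ∧
          (∀ i, (∑ j, A i j) = 1) ∧
          (∀ j k, (∑ i ∈ Finset.Iic k, A i j) = 0 ∨ (∑ i ∈ Finset.Iic k, A i j) = 1) ∧
          (∀ j, (∑ i, A i j) = 1) ∧
          (∀ i j, A i j = A j i) ∧
          (∃ d : Fin (2 * n + 1), ∀ i, i ≠ d → A i i = 0)} : ℕ) : ℚ)
        = (2 : ℚ) ^ (n - 1) * ((Nat.factorial (3 * n + 2) : ℕ) : ℚ)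
            / ((Nat.factorial (2 * n + 1) : ℕ) : ℚ)
          * ∏ i ∈ Finset.Icc 1 n,
              (((Nat.factorial (6 * i - 2) : ℕ) : ℚ)
                / ((Nat.factorial (2 * n + 2 * i + 1) : ℕ) : ℚ)) :=
  final lim pfk Pool.Agent.W362.OS.FIN.T_FIN

end Pool.Agent.W98.OS
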