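import Pool.Agent.W98.OS.Defs

set_option autoImplicit false

namespace Pool.Agent.W98.OS

open Finset

/-- integer value of a state -/
def b2z (b : Bool) : ℤ := if b then 1 else 0

theorem b2z_eq_one (b : Bool) : b2z b = 1 ↔ b = true := by cases b <;> simp [b2z]

theorem b2z_inj {a b : Bool} (h : b2z a = b2z b) : a = b := by
  cases a <;> cases b <;> simp_all [b2z]

theorem b2z_or (b : Bool) : b2z b = 0 ∨ b2z b = 1 := by cases b <;> simp [b2z]

theorem Iic_succ_sum {k : ℕ} (f : Fin (k + 1) → ℤ) (j : Fin k) :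
    ∑ l ∈ Iic j.succ, f l = f 0 + ∑ l ∈ Iic j, f l.succ := by
  have h : Iic j.succ = insert 0 ((Iic j).map (Fin.succEmb k)) := by
    ext l
    simp only [mem_Iic, mem_insert, mem_map]
    refine Fin.cases ?_ (fun l' => ?_) l
    · simp
    · simp [Fin.succ_le_succ_iff]
  rw [h, sum_insert, sum_map]
  · rfl
  · simp

theorem Iic_zero_sum {k : ℕ} (f : Fin (k + 1) → ℤ) :
    ∑ l ∈ Iic (0 : Fin (k + 1)), f l = f 0 := by
  have h : Iic (0 : Fin (k + 1)) = {0} := by
    ext l
    simp
  rw [h, sum_singleton]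

/-- admissible transfer of a row, in terms of the states before and after -/
def Valid (k : ℕ) (h : Bool) (v w : Fin k → Bool) : Prop :=
  (∀ j, b2z h + ∑ l ∈ Iic j, (b2z (w l) - b2z (v l)) = 0 ∨
    b2z h + ∑ l ∈ Iic j, (b2z (w l) - b2z (v l)) = 1) ∧
  b2z h + ∑ l, (b2z (w l) - b2z (v l)) = 1

theorem Valid_zero (h : Bool) (v w : Fin 0 → Bool) : Valid 0 h v w ↔ h = true := by
  unfold Valid
  cases h <;> simp [b2z]

theorem Valid_succ (k : ℕ) (h h' : Bool) (v w : Fin (k + 1) → Bool)
    (hh : b2z h + (b2z (w 0) - b2z (v 0)) = b2z h') :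
    Valid (k + 1) h v w ↔ Valid k h' (fun j => v j.succ) (fun j => w j.succ) := by
  unfold Valid
  rw [Fin.sum_univ_succ, Fin.forall_fin_succ, Iic_zero_sum]
  have e : ∀ j : Fin k, b2z h + ∑ l ∈ Iic j.succ, (b2z (w l) - b2z (v l)) =
      b2z h' + ∑ l ∈ Iic j, (b2z (w l.succ) - b2z (v l.succ)) := by
    intro j
    rw [Iic_succ_sum, ← hh]
    ring
  simp only [e]
  rw [hh, ← add_assoc, hh]
  have := b2z_or h'
  tauto

theorem Valid_not (k : ℕ) (h : Bool) (v w : Fin (k + 1) → Bool)
    (hh : ¬ (b2z h + (b2z (w 0) - b2z (v 0)) = 0 ∨ b2z h + (b2z (w 0) - b2z (v 0)) = 1)) :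
    ¬ Valid (k + 1) h v w := by
  intro hv
  have := hv.1 0
  rw [Iic_zero_sum] at this
  exact hh this

open Classical in
/-- the row at the homogeneous point as a sum over admissible transfers -/
theorem row_zero : ∀ (k : ℕ) (h : Bool) (v : Fin k → Bool) (F : List Bool → ℚ),
    row (0 : ℚ) h (List.replicate k 0) (List.ofFn v) F =
      ∑ w : Fin k → Bool, if Valid k h v w then F (List.ofFn w) else 0
  | 0, h, v, F => by
    simp only [Valid_zero]
    cases h <;> simp [row]
  | k + 1, h, v, F => by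
    have hsum : ∀ G : (Fin (k + 1) → Bool) → ℚ, ∑ w, G w =
        ∑ w' : Fin k → Bool, (G (Fin.cons false w') + G (Fin.cons true w')) := by
      intro G
      rw [← (Fin.consEquiv (fun _ => Bool)).sum_comp G, Fintype.sum_prod_type]
      simp only [Fintype.sum_bool]
      rw [add_comm, ← sum_add_distrib]
      rfl
    rw [hsum, List.ofFn_succ, List.replicate_succ]
    have ih := fun h => row_zero k h (fun j => v j.succ)
    have eT : ∀ (b : Bool) (w' : Fin k → Bool), List.ofFn (Fin.cons b w' : Fin (k + 1) → Bool) =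
        b :: List.ofFn w' := by
      intro b w'
      rw [List.ofFn_succ]
      simp
    simp only [eT]
    have c0 : ∀ (b : Bool) (w' : Fin k → Bool), (Fin.cons b w' : Fin (k + 1) → Bool) 0 = b := by
      intro b w'; rfl
    have cs : ∀ (b : Bool) (w' : Fin k → Bool), (fun j : Fin k =>
        (Fin.cons b w' : Fin (k + 1) → Bool) j.succ) = w' := by
      intro b w'; funext j; simp
    have VS : ∀ (h' b : Bool) (w' : Fin k → Bool), b2z h + (b2z b - b2z (v 0)) = b2z h' →
        (Valid (k + 1) h v (Fin.cons b w') ↔ Valid k h' (fun j => v j.succ) w') := by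
      intro h' b w' hh
      have := Valid_succ k h h' v (Fin.cons b w') (by rw [c0]; exact hh)
      rw [cs] at this
      exact this
    have VN : ∀ (b : Bool) (w' : Fin k → Bool),
        ¬ (b2z h + (b2z b - b2z (v 0)) = 0 ∨ b2z h + (b2z b - b2z (v 0)) = 1) →
        ¬ Valid (k + 1) h v (Fin.cons b w') := by
      intro b w' hh
      exact Valid_not k h v (Fin.cons b w') (by rw [c0]; exact hh)
    rcases hv : v 0 with _ | _ <;> rcases h with _ | _
    · simp only [row, ih]
      simp only [hv] at VS VN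
      rw [sub_zero, sub_zero, one_mul, ← sum_add_distrib]
      apply sum_congr rfl
      intro w' _
      simp only [VS false false w' (by simp [b2z]), VS true true w' (by simp [b2z])]
    · simp only [row, ih]
      simp only [hv] at VS VN
      rw [mul_zero, sub_zero, one_mul]
      apply sum_congr rfl
      intro w' _
      simp only [VS true false w' (by simp [b2z]), if_neg (VN true w' (by simp [b2z])), add_zero]
    · simp only [row, ih]
      simp only [hv] at VS VN
      rw [mul_zero, sub_zero, one_mul]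
      apply sum_congr rfl
      intro w' _
      simp only [VS false true w' (by simp [b2z]), if_neg (VN false w' (by simp [b2z])), zero_add]
    · simp only [row, ih]
      simp only [hv] at VS VN
      have hk : kap (0 : ℚ) = 1 := by simp [kap]
      rw [sub_zero, sub_zero, one_mul, hk, one_mul, one_mul, ← sum_add_distrib]
      apply sum_congr rfl
      intro w' _
      simp only [VS true true w' (by simp [b2z]), VS false false w' (by simp [b2z])]
      ring

/-- admissible matrices with initial states `v` -/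
def SB (k : ℕ) (v : Fin k → Bool) (A : Matrix (Fin k) (Fin k) ℤ) : Prop :=
  SymOK k (fun i => b2z (v i)) A

theorem sum_Iic_eq {k : ℕ} (f : Fin k → ℤ) (j : Fin k) :
    ∑ l ∈ Iic j, f l = ∑ l ∈ Iio j, f l + f j := by
  rw [← Finset.Iio_insert j, sum_insert (by simp), add_comm]

instance SB_finite (k : ℕ) (v : Fin k → Bool) : Finite {A : Matrix (Fin k) (Fin k) ℤ // SB k v A} := by
  let f : {A : Matrix (Fin k) (Fin k) ℤ // SB k v A} → (Fin k → Fin k → Prop) :=
    fun A i j => b2z (v i) + ∑ l ∈ Iic j, A.1 i l = 1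
  have hf : Function.Injective f := by
    intro A B hAB
    apply Subtype.ext
    have h1 : ∀ i j, ∑ l ∈ Iic j, A.1 i l = ∑ l ∈ Iic j, B.1 i l := by
      intro i j
      have h := congrFun (congrFun hAB i) j
      have a := A.2.2.1 i j
      have b := B.2.2.1 i j
      simp only [f, eq_iff_iff] at h
      simp only at a b
      rcases a with a | a
      · rcases b with b | b
        · linarith
        · have := h.2 b; linarith
      · have := h.1 a; linarith
    have h2 : ∀ (n : ℕ) (i j : Fin k), (j : ℕ) = n → A.1 i j = B.1 i j := by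
      intro n
      induction n using Nat.strong_induction_on with
      | _ n ih =>
        intro i j hj
        have h3 := h1 i j
        rw [sum_Iic_eq, sum_Iic_eq] at h3
        have h4 : ∑ l ∈ Iio j, A.1 i l = ∑ l ∈ Iio j, B.1 i l := by
          apply sum_congr rfl
          intro l hl
          rw [mem_Iio, Fin.lt_def] at hl
          exact ih l (by omega) i l rfl
        linarith
    ext i j
    exact h2 j i j rfl
  exact Finite.of_injective f hf

theorem SB_finite_sub (k : ℕ) (v : Fin k → Bool) (Q : Matrix (Fin k) (Fin k) ℤ → Prop) :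
    Finite {A : Matrix (Fin k) (Fin k) ℤ // SB k v A ∧ Q A} := by
  apply Finite.of_injective (fun A : {A : Matrix (Fin k) (Fin k) ℤ // SB k v A ∧ Q A} =>
    (⟨A.1, A.2.1⟩ : {A : Matrix (Fin k) (Fin k) ℤ // SB k v A}))
  intro A B h
  apply Subtype.ext
  have h2 := Subtype.ext_iff.1 h
  exact h2

/-- the matrix with given first entry, first row and remaining part -/
def mk (k : ℕ) (a : ℤ) (r : Fin k → ℤ) (A : Matrix (Fin k) (Fin k) ℤ) :
    Matrix (Fin (k + 1)) (Fin (k + 1)) ℤ :=
  fun i j => Fin.cases (motive := fun _ => ℤ) (Fin.cases (motive := fun _ => ℤ) a r j)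
    (fun i' => Fin.cases (motive := fun _ => ℤ) (r i') (fun j' => A i' j') j) i

theorem mk_00 (k : ℕ) (a : ℤ) (r : Fin k → ℤ) (A : Matrix (Fin k) (Fin k) ℤ) : mk k a r A 0 0 = a := rfl
theorem mk_0s (k : ℕ) (a : ℤ) (r : Fin k → ℤ) (A : Matrix (Fin k) (Fin k) ℤ) (j : Fin k) :
    mk k a r A 0 j.succ = r j := rfl
theorem mk_s0 (k : ℕ) (a : ℤ) (r : Fin k → ℤ) (A : Matrix (Fin k) (Fin k) ℤ) (j : Fin k) :
    mk k a r A j.succ 0 = r j := rfl
theorem mk_ss (k : ℕ) (a : ℤ) (r : Fin k → ℤ) (A : Matrix (Fin k) (Fin k) ℤ) (i j : Fin k) :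
    mk k a r A i.succ j.succ = A i j := rfl

theorem mk_eta (k : ℕ) (A : Matrix (Fin (k + 1)) (Fin (k + 1)) ℤ) (hA : ∀ i j, A i j = A j i) :
    mk k (A 0 0) (fun j => A 0 j.succ) (A.submatrix Fin.succ Fin.succ) = A := by
  ext i j
  refine Fin.cases ?_ (fun i' => ?_) i <;> refine Fin.cases ?_ (fun j' => ?_) j
  · rfl
  · rfl
  · exact hA _ _
  · rfl

/-- peeling the first row and column -/
theorem SB_mk (k : ℕ) (h : Bool) (v : Fin (k + 1) → Bool) (a : ℤ) (hh : b2z (v 0) + a = b2z h)
    (w : Fin k → Bool) (A : Matrix (Fin k) (Fin k) ℤ) :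
    SB (k + 1) v (mk k a (fun j => b2z (w j) - b2z (v j.succ)) A) ↔
      Valid k h (fun j => v j.succ) w ∧ SB k w A := by
  unfold SB SymOK Valid
  simp only [Fin.forall_fin_succ, Fin.sum_univ_succ, Iic_succ_sum, Iic_zero_sum, mk_00, mk_0s,
    mk_s0, mk_ss]
  have e1 : ∀ i j : Fin k, b2z (v i.succ) + (b2z (w i) - b2z (v i.succ) + ∑ l ∈ Iic j, A i l) =
      b2z (w i) + ∑ l ∈ Iic j, A i l := by
    intro i j; ring
  have e2 : ∀ i : Fin k, b2z (v i.succ) + (b2z (w i) - b2z (v i.succ) + ∑ l, A i l) =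
      b2z (w i) + ∑ l, A i l := by
    intro i; ring
  have e3 : ∀ i : Fin k, b2z (v i.succ) + (b2z (w i) - b2z (v i.succ)) = b2z (w i) := by
    intro i; ring
  have e4 : ∀ s : ℤ, b2z (v 0) + (a + s) = b2z h + s := by
    intro s; rw [← hh]; ring
  simp only [e1, e2, e3, e4, hh]
  have o1 := b2z_or h
  have o2 : ∀ i, b2z (w i) = 0 ∨ b2z (w i) = 1 := fun i => b2z_or (w i)
  constructor
  · rintro ⟨⟨-, hs⟩, ⟨⟨-, hr⟩, hr2⟩, hz⟩
    refine ⟨⟨hr, hz.1⟩, fun i j => (hs i).2 j, fun i j => (hr2 i).2 j, hz.2⟩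
  · rintro ⟨⟨hr, hz1⟩, hs, hr2, hz2⟩
    exact ⟨⟨⟨trivial, fun _ => trivial⟩, fun i => ⟨trivial, fun j => hs i j⟩⟩,
      ⟨⟨o1, hr⟩, fun i => ⟨o2 i, fun j => hr2 i j⟩⟩, hz1, hz2⟩

open Classical in
theorem card_peel (k : ℕ) (h : Bool) (v : Fin (k + 1) → Bool) (a : ℤ)
    (hh : b2z (v 0) + a = b2z h) (Q : Matrix (Fin k) (Fin k) ℤ → Prop) :
    Nat.card {A : Matrix (Fin (k + 1)) (Fin (k + 1)) ℤ //
      SB (k + 1) v A ∧ (A 0 0 = a ∧ Q (A.submatrix Fin.succ Fin.succ))} =
    ∑ w : Fin k → Bool, if Valid k h (fun j => v j.succ) w then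
      Nat.card {A : Matrix (Fin k) (Fin k) ℤ // SB k w A ∧ Q A} else 0 := by
  let T : Type := Σ w : {w : Fin k → Bool // Valid k h (fun j => v j.succ) w},
    {A : Matrix (Fin k) (Fin k) ℤ // SB k w.1 A ∧ Q A}
  let f : T → {A : Matrix (Fin (k + 1)) (Fin (k + 1)) ℤ //
      SB (k + 1) v A ∧ (A 0 0 = a ∧ Q (A.submatrix Fin.succ Fin.succ))} := fun t =>
    ⟨mk k a (fun j => b2z (t.1.1 j) - b2z (v j.succ)) t.2.1,
      (SB_mk k h v a hh t.1.1 t.2.1).2 ⟨t.1.2, t.2.2.1⟩, rfl, t.2.2.2⟩
  have hf : Function.Bijective f := by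
    constructor
    · rintro ⟨⟨w, hw⟩, ⟨A, hA⟩⟩ ⟨⟨w', hw'⟩, ⟨A', hA'⟩⟩ he
      have he2 : mk k a (fun j => b2z (w j) - b2z (v j.succ)) A =
          mk k a (fun j => b2z (w' j) - b2z (v j.succ)) A' := Subtype.ext_iff.1 he
      have hw2 : w = w' := by
        funext j
        have := congrFun (congrFun he2 0) j.succ
        rw [mk_0s, mk_0s] at this
        exact b2z_inj (by linarith)
      subst hw2
      have hA2 : A = A' := by
        ext i j
        exact congrFun (congrFun he2 i.succ) j.succ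
      subst hA2
      rfl
    · rintro ⟨A, hA, ha, hQ⟩
      have hr : ∀ j : Fin k, b2z (v j.succ) + A j.succ 0 = 0 ∨ b2z (v j.succ) + A j.succ 0 = 1 := by
        intro j
        have := hA.2.1 j.succ 0
        rw [Iic_zero_sum] at this
        exact this
      let w : Fin k → Bool := fun j => decide (b2z (v j.succ) + A j.succ 0 = 1)
      have hw : ∀ j, b2z (w j) = b2z (v j.succ) + A j.succ 0 := by
        intro j
        have hd : w j = decide (b2z (v j.succ) + A j.succ 0 = 1) := rfl
        rw [hd]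
        rcases hr j with h0 | h0
        · rw [h0]; rfl
        · rw [h0]; rfl
      have hm : mk k a (fun j => b2z (w j) - b2z (v j.succ)) (A.submatrix Fin.succ Fin.succ) = A := by
        conv_rhs => rw [← mk_eta k A hA.1]
        rw [ha]
        congr 1
        funext j
        rw [hw, hA.1 0 j.succ]
        ring
      have hA' := hA
      rw [← hm] at hA'
      have h3 := (SB_mk k h v a hh w _).1 hA'
      refine ⟨⟨⟨w, h3.1⟩, ⟨A.submatrix Fin.succ Fin.succ, h3.2, hQ⟩⟩, ?_⟩
      apply Subtype.ext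
      exact hm
  rw [← Nat.card_congr (Equiv.ofBijective f hf)]
  have : ∀ w : {w : Fin k → Bool // Valid k h (fun j => v j.succ) w},
    Finite {A : Matrix (Fin k) (Fin k) ℤ // SB k w.1 A ∧ Q A} := fun w => SB_finite_sub k w.1 Q
  rw [Nat.card_sigma, ← Finset.sum_filter]
  symm
  apply Finset.sum_subtype
  intro w
  simp

theorem card_or {α : Type} (p q : α → Prop) (hpq : ∀ a, p a → ¬ q a)
    [Finite {a // p a}] [Finite {a // q a}] :
    Nat.card {a // p a ∨ q a} = Nat.card {a // p a} + Nat.card {a // q a} := by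
  classical
  rw [← Nat.card_sum]
  exact Nat.card_congr (subtypeOrEquiv p q (by
    rw [Pi.disjoint_iff]
    intro a
    rw [Prop.disjoint_iff]
    exact fun h => hpq a h.1 h.2))

theorem Ef_zero (k : ℕ) : ∀ v : Fin k → Bool,
    ((Nat.card {A : Matrix (Fin k) (Fin k) ℤ // SB k v A ∧ ∀ i, A i i = 0} : ℕ) : ℚ) =
      Ef (List.replicate k 0) (List.ofFn v) := by
  induction k with
  | zero =>
    intro v
    have : Nat.card {A : Matrix (Fin 0) (Fin 0) ℤ // SB 0 v A ∧ ∀ i, A i i = 0} = 1 := by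
      rw [Nat.card_eq_one_iff_unique]
      refine ⟨⟨fun a b => Subtype.ext (Subsingleton.elim _ _)⟩, ⟨⟨0, ⟨fun i => i.elim0,
        fun i => i.elim0, fun i => i.elim0⟩, fun i => i.elim0⟩⟩⟩
    rw [this]
    simp [Ef, Zf]
  | succ k ih =>
    intro v
    have e3 := card_peel k (v 0) v 0 (by ring)
      (fun B : Matrix (Fin k) (Fin k) ℤ => ∀ i, B i i = 0)
    have e1 : Nat.card {A : Matrix (Fin (k + 1)) (Fin (k + 1)) ℤ // SB (k + 1) v A ∧
        ∀ i, A i i = 0} = _ := (Nat.card_congr (Equiv.subtypeEquivRight (fun A => by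
      rw [Fin.forall_fin_succ]
      rfl))).trans e3
    rw [e1]
    have e2 : Ef (List.replicate (k + 1) (0 : ℚ)) (List.ofFn v) =
        row (0 : ℚ) (v 0) (List.replicate k 0) (List.ofFn fun j => v j.succ)
          (Ef (List.replicate k 0)) := by
      rw [List.ofFn_succ, List.replicate_succ]
      unfold Ef
      rcases v 0 with _ | _ <;> simp [Zf]
    rw [e2, row_zero]
    push_cast
    apply sum_congr rfl
    intro w _
    split_ifs
    · exact ih w
    · rfl

theorem Wf_zero (k : ℕ) : ∀ v : Fin k → Bool,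
    ((Nat.card {A : Matrix (Fin k) (Fin k) ℤ // SB k v A ∧
      ∃ d, A d d ≠ 0 ∧ ∀ i, i ≠ d → A i i = 0} : ℕ) : ℚ) =
      Wf (List.replicate k 0) (List.ofFn v) := by
  induction k with
  | zero =>
    intro v
    have : Nat.card {A : Matrix (Fin 0) (Fin 0) ℤ // SB 0 v A ∧
        ∃ d, A d d ≠ 0 ∧ ∀ i, i ≠ d → A i i = 0} = 0 := by
      haveI : IsEmpty {A : Matrix (Fin 0) (Fin 0) ℤ // SB 0 v A ∧
        ∃ d, A d d ≠ 0 ∧ ∀ i, i ≠ d → A i i = 0} := ⟨fun A => by
          obtain ⟨d, -⟩ := A.2.2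
          exact d.elim0⟩
      exact Nat.card_of_isEmpty
    rw [this]
    simp [Wf]
  | succ k ih =>
    intro v
    have a1 : b2z (v 0) + (b2z (!v 0) - b2z (v 0)) = b2z (!v 0) := by ring
    have a2 : b2z (!v 0) - b2z (v 0) ≠ 0 := by
      cases v 0 <;> simp [b2z]
    have p1 := card_peel k (v 0) v 0 (by ring)
      (fun B : Matrix (Fin k) (Fin k) ℤ => ∃ d, B d d ≠ 0 ∧ ∀ i, i ≠ d → B i i = 0)
    have p2 := card_peel k (!v 0) v (b2z (!v 0) - b2z (v 0)) a1
      (fun B : Matrix (Fin k) (Fin k) ℤ => ∀ i, B i i = 0)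
    have f1 := SB_finite_sub (k + 1) v (fun A => A 0 0 = 0 ∧
      (fun B : Matrix (Fin k) (Fin k) ℤ => ∃ d, B d d ≠ 0 ∧ ∀ i, i ≠ d → B i i = 0)
      (A.submatrix Fin.succ Fin.succ))
    have f2 := SB_finite_sub (k + 1) v (fun A => A 0 0 = b2z (!v 0) - b2z (v 0) ∧
      (fun B : Matrix (Fin k) (Fin k) ℤ => ∀ i, B i i = 0) (A.submatrix Fin.succ Fin.succ))
    have e0 := card_or (fun A : Matrix (Fin (k + 1)) (Fin (k + 1)) ℤ => SB (k + 1) v A ∧
      (A 0 0 = 0 ∧ (fun B : Matrix (Fin k) (Fin k) ℤ => ∃ d, B d d ≠ 0 ∧ ∀ i, i ≠ d → B i i = 0)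
      (A.submatrix Fin.succ Fin.succ))) (fun A => SB (k + 1) v A ∧
      (A 0 0 = b2z (!v 0) - b2z (v 0) ∧
      (fun B : Matrix (Fin k) (Fin k) ℤ => ∀ i, B i i = 0) (A.submatrix Fin.succ Fin.succ)))
      (by
        intro A h1 h2
        exact a2 (h2.2.1.symm.trans h1.2.1))
    have e1 : Nat.card {A : Matrix (Fin (k + 1)) (Fin (k + 1)) ℤ // SB (k + 1) v A ∧
        ∃ d, A d d ≠ 0 ∧ ∀ i, i ≠ d → A i i = 0} = _ :=
        (Nat.card_congr (Equiv.subtypeEquivRight (fun A => by
      constructor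
      · rintro ⟨hA, d, hd, hd2⟩
        by_cases h0 : A 0 0 = 0
        · left
          refine ⟨hA, h0, ?_⟩
          have hd0 : d ≠ 0 := by
            rintro rfl
            exact hd h0
          obtain ⟨d', rfl⟩ := Fin.exists_succ_eq.2 hd0
          exact ⟨d', hd, fun i hi => hd2 i.succ (fun h => hi (Fin.succ_injective _ h))⟩
        · right
          have hd0 : d = 0 := by
            by_contra h
            exact h0 (hd2 0 (fun h2 => h h2.symm))
          subst hd0
          refine ⟨hA, ?_, fun i => hd2 i.succ (Fin.succ_ne_zero i)⟩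
          have h1 := hA.2.1 0 0
          rw [Iic_zero_sum] at h1
          simp only at h1
          cases hv : v 0 <;> simp [b2z, hv] at h1 ⊢ <;> omega
      · rintro (⟨hA, h0, d, hd, hd2⟩ | ⟨hA, h0, h2⟩)
        · refine ⟨hA, d.succ, hd, ?_⟩
          intro i
          refine Fin.cases ?_ (fun i' => ?_) i
          · intro _
            exact h0
          · intro hi
            exact hd2 i' (fun h => hi (by rw [h]))
        · refine ⟨hA, 0, by rw [h0]; exact a2, ?_⟩
          intro i
          refine Fin.cases ?_ (fun i' => ?_) i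
          · intro hi
            exact absurd rfl hi
          · intro _
            exact h2 i'))).trans e0
    rw [e1, p1, p2]
    have hP : ((List.replicate k (0 : ℚ)).map fun y => 1 - 2 * y).prod = 1 := by
      simp
    have e2 : Wf (List.replicate (k + 1) (0 : ℚ)) (List.ofFn v) =
        row (0 : ℚ) (v 0) (List.replicate k 0) (List.ofFn fun j => v j.succ)
          (Wf (List.replicate k 0)) +
        row (0 : ℚ) (!v 0) (List.replicate k 0) (List.ofFn fun j => v j.succ)
          (Ef (List.replicate k 0)) := by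
      rw [List.ofFn_succ, List.replicate_succ]
      rcases v 0 with _ | _
      · simp only [Wf, hP]
        simp
      · simp only [Wf, hP]
        simp [kap]
    rw [e2, row_zero, row_zero]
    push_cast
    congr 1
    · apply sum_congr rfl
      intro w _
      split_ifs
      · exact ih w
      · rfl
    · apply sum_congr rfl
      intro w _
      split_ifs
      · exact Ef_zero k w
      · rfl

theorem T_CNTA : S_CNTA := by
  intro k v
  exact ⟨Ef_zero k v, Wf_zero k v⟩

end Pool.Agent.W98.OS
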