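import Pool.Agent.W98.OS.Defs

set_option autoImplicit false

namespace Pool.Agent.W98.OS

open Finset

theorem Iic_sum_split {k : ℕ} (f : Fin k → ℤ) (j : Fin k) :
    ∑ l ∈ Iic j, f l = ∑ l ∈ Iio j, f l + f j := by
  rw [← Finset.Iio_insert j, sum_insert (by simp), add_comm]

theorem Iio_sum_zero_or {k : ℕ} (f : Fin k → ℤ) (h : ∀ j, ∑ l ∈ Iic j, f l = 0 ∨ ∑ l ∈ Iic j, f l = 1)
    (j : Fin k) : ∑ l ∈ Iio j, f l = 0 ∨ ∑ l ∈ Iio j, f l = 1 := by
  obtain ⟨n, hn⟩ := j
  rcases n with _ | n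
  · left
    apply sum_eq_zero
    intro l hl
    rw [mem_Iio, Fin.lt_def] at hl
    simp at hl
  · have e : Iio (⟨n + 1, hn⟩ : Fin k) = Iic (⟨n, by omega⟩ : Fin k) := by
      ext l
      rw [mem_Iio, mem_Iic, Fin.lt_def, Fin.le_def]
      simp only
      omega
    rw [e]
    exact h _

theorem entry_or {k : ℕ} (f : Fin k → ℤ) (h : ∀ j, ∑ l ∈ Iic j, f l = 0 ∨ ∑ l ∈ Iic j, f l = 1)
    (j : Fin k) : f j = -1 ∨ f j = 0 ∨ f j = 1 := by
  have h1 := Iio_sum_zero_or f h j
  have h2 := h j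
  rw [Iic_sum_split] at h2
  omega

theorem odd_diag (n : ℕ) (A : Matrix (Fin (2 * n + 1)) (Fin (2 * n + 1)) ℤ)
    (hs : ∀ i j, A i j = A j i) (h1 : ∀ i, ∑ j, A i j = 1) (h0 : ∀ i, A i i = 0) : False := by
  have e1 : ∑ p : Fin (2 * n + 1) × Fin (2 * n + 1), ((A p.1 p.2 : ℤ) : ZMod 2) = 0 := by
    apply Finset.sum_involution (fun p _ => (p.2, p.1))
    · intro p _
      simp only
      rw [hs p.2 p.1]
      exact CharTwo.add_self_eq_zero _
    · intro p _ hp heq
      have : p.2 = p.1 := congrArg Prod.fst heq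
      rw [this, h0] at hp
      exact hp (by simp)
    · intro p _
      exact mem_univ _
    · intro p _
      rfl
  rw [Fintype.sum_prod_type] at e1
  have e2 : ∀ i : Fin (2 * n + 1), ∑ j, ((A i j : ℤ) : ZMod 2) = 1 := by
    intro i
    rw [← Int.cast_sum, h1]
    simp
  rw [sum_congr rfl fun i _ => e2 i] at e1
  simp only [sum_const, card_univ, Fintype.card_fin, nsmul_eq_mul, mul_one] at e1
  push_cast at e1
  have : (2 : ZMod 2) = 0 := rfl
  rw [this] at e1
  simp at e1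

theorem T_CNTB : S_CNTB := by
  intro n
  apply Nat.card_congr
  apply Equiv.subtypeEquivRight
  intro A
  constructor
  · rintro ⟨-, hr, hr1, -, -, hs, d, hd⟩
    refine ⟨⟨hs, fun i j => by simpa using hr i j, fun i => by simpa using hr1 i⟩, d, ?_, hd⟩
    intro hdd
    apply odd_diag n A hs hr1
    intro i
    by_cases h : i = d
    · rw [h]; exact hdd
    · exact hd i h
  · rintro ⟨⟨hs, hr, hr1⟩, d, -, hd⟩
    simp only [zero_add] at hr hr1
    refine ⟨fun i j => entry_or (fun l => A i l) (hr i) j, fun i k => hr i k, hr1, fun j k => ?_, fun j => ?_, hs, d, hd⟩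
    · have e : ∑ i ∈ Iic k, A i j = ∑ i ∈ Iic k, A j i := sum_congr rfl fun i _ => hs i j
      rw [e]
      exact hr j k
    · have e : ∑ i, A i j = ∑ i, A j i := sum_congr rfl fun i _ => hs i j
      rw [e]
      exact hr1 j

end Pool.Agent.W98.OS
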