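import Pool.Agent.Helper929.Pfaffian
import Pool.Agent.W223.Osasm.Coef

/-!
# Odd order off-diagonally symmetric alternating sign matrices: definitions and statements

The triangular six-vertex model at the combinatorial point, the Pfaffian formulas and the
elementary statements from which the enumeration follows.
-/

set_option autoImplicit false

namespace Pool.Agent.W98.OS

open Pool.Agent.Helper929

section model

variable {R : Type*} [CommRing R]

/-- The polynomial `1 - x + x ^ 2`. -/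
def kap (x : R) : R := 1 - x + x ^ 2

/-- Transfer of one horizontal line with parameter `x`, current state `h`, through the
vertical lines with parameters `ys` and incoming states `vs`; the line has to leave with
state `true`, and `F` is the weight of the list of outgoing vertical states. -/
def row (x : R) : Bool → List R → List Bool → (List Bool → R) → R
  | h, [], [], F => if h then F [] else 0
  | _, [], _ :: _, _ => 0
  | _, _ :: _, [], _ => 0
  | false, y :: ys, false :: vs, F =>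
      (1 - x - y) * row x false ys vs (fun u => F (false :: u)) +
        row x true ys vs (fun u => F (true :: u))
  | true, y :: ys, true :: vs, F =>
      (1 - x - y) * row x true ys vs (fun u => F (true :: u)) +
        kap x * kap y * row x false ys vs (fun u => F (false :: u))
  | true, y :: ys, false :: vs, F =>
      (1 - x * y) * row x true ys vs (fun u => F (false :: u))
  | false, y :: ys, true :: vs, F =>
      (1 - x * y) * row x false ys vs (fun u => F (true :: u))

/-- Partition function of the triangle with incoming vertical states `vs`; diagonal weights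
`d x` (zero entry), `e` (entry `1`), `e * kap x` (entry `-1`). -/
def Zf (d : R → R) (e : R) : List R → List Bool → R
  | [], [] => 1
  | [], _ :: _ => 0
  | _ :: _, [] => 0
  | x :: xs, false :: vs => d x * row x false xs vs (Zf d e xs) + e * row x true xs vs (Zf d e xs)
  | x :: xs, true :: vs =>
      d x * row x true xs vs (Zf d e xs) + e * kap x * row x false xs vs (Zf d e xs)

/-- No nonzero diagonal entry. -/
def Ef (xs : List R) (vs : List Bool) : R := Zf (fun _ => 1) 0 xs vs

/-- Exactly one nonzero diagonal entry; zero diagonal entries have weight `1 - 2 * x`. -/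
def Wf : List R → List Bool → R
  | [], _ => 0
  | _ :: _, [] => 0
  | x :: xs, false :: vs => (1 - 2 * x) * row x false xs vs (Wf xs) +
      (xs.map fun y => 1 - 2 * y).prod * row x true xs vs (Ef xs)
  | x :: xs, true :: vs => (1 - 2 * x) * row x true xs vs (Wf xs) +
      (xs.map fun y => 1 - 2 * y).prod * (kap x * row x false xs vs (Ef xs))

/-- all vertical states equal to `false` -/
def zs (n : ℕ) : List Bool := List.replicate n false

/-- Partition function without nonzero diagonal entries. -/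
def Z0 (l : List R) : R := Ef l (zs l.length)

/-- Partition function with exactly one nonzero diagonal entry. -/
def W0 (l : List R) : R := Wf l (zs l.length)

/-- The matrix of the exchange of two neighbouring lines with parameters `a`, `b`. -/
def opR (a b : R) (G : Bool → Bool → R) : Bool → Bool → R
  | false, false => (1 - b + a * b) * G false false
  | true, true => (1 - b + a * b) * G true true
  | false, true => kap b * G false true + (a - b) * G true false
  | true, false => kap a * G true false + (a - b) * G false true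

/-- The same acting at the positions `n`, `n + 1` of a list of states. -/
def opAt (a b : R) : ℕ → (List Bool → R) → List Bool → R
  | 0, F, s :: t :: u => opR a b (fun s' t' => F (s' :: t' :: u)) s t
  | 0, _, [_] => 0
  | 0, _, [] => 0
  | n + 1, F, s :: u => opAt a b n (fun w => F (s :: w)) u
  | _ + 1, _, [] => 0

end model

/-! ### Part A: the model -/

/-- A row passes an exchanged pair of columns (Yang-Baxter equation). -/
def S_COL : Prop := ∀ (R : Type) [CommRing R] (x a b : R) (h : Bool) (l₁ l₂ : List R)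
  (F : List Bool → R) (v : List Bool), v.length = l₁.length + 2 + l₂.length →
  opAt a b l₁.length (fun w => row x h (l₁ ++ b :: a :: l₂) w F) v =
    row x h (l₁ ++ a :: b :: l₂) v (opAt a b l₁.length F)

/-- Exchange of two rows (Yang-Baxter equation). -/
def S_ROW2 : Prop := ∀ (R : Type) [CommRing R] (a b : R) (ys : List R)
  (F : List Bool → R) (v : List Bool) (s t : Bool), v.length = ys.length →
  opR a b (fun s' t' => row b s' ys v (fun u => row a t' ys u F)) s t =
    (1 - b + a * b) * row a s ys v (fun u => row b t ys u F)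

/-- The exchange relation for the partition function. -/
def S_EXCH : Prop := ∀ (R : Type) [CommRing R] (d : R → R) (e : R),
  ((∀ x, d x = 1) ∧ e = 0) ∨ (∀ x, d x = 1 - 2 * x) →
  ∀ (a b : R) (l₁ l₂ : List R) (v : List Bool), v.length = l₁.length + 2 + l₂.length →
  opAt a b l₁.length (Zf d e (l₁ ++ b :: a :: l₂)) v =
    (1 - b + a * b) * Zf d e (l₁ ++ a :: b :: l₂) v

/-- The partition functions are symmetric in the parameters. -/
def S_PERM : Prop := ∀ (R : Type) [CommRing R] (l l' : List R), l.Perm l' →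
  Z0 l = Z0 l' ∧ W0 l = W0 l'

/-- Degrees in the first parameter. -/
def S_DEG : Prop := ∀ (K : Type) [Field K] (xs : List K),
  (∃ p : Polynomial K, p.degree < (xs.length : ℕ) ∧ ∀ X, Z0 (X :: xs) = p.eval X) ∧
  (∃ p : Polynomial K, p.degree < ((xs.length + 1 : ℕ) : WithBot ℕ) ∧
    ∀ X, W0 (X :: xs) = p.eval X)

/-- Frozen corner. -/
def S_FRZ : Prop := ∀ (R : Type) [CommRing R] (x y : R) (l : List R), x * y = 1 →
  Z0 (x :: (l ++ [y])) = (l.map fun t => (1 - x - t) * (1 - t - y)).prod * Z0 l ∧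
  W0 (x :: (l ++ [y])) =
    (1 - 2 * x) * (1 - 2 * y) * (l.map fun t => (1 - x - t) * (1 - t - y)).prod * W0 l

/-- The value at `1 / 2`. -/
def S_HALF : Prop := ∀ (R : Type) [CommRing R] (x : R) (l : List R), 2 * x = 1 →
  W0 (x :: l) = (l.map fun t => (1 - x * t) * (1 - 2 * t)).prod * Z0 l

/-- The conditions on the rows of a symmetric matrix, with initial states `v`. -/
def SymOK (k : ℕ) (v : Fin k → ℤ) (A : Matrix (Fin k) (Fin k) ℤ) : Prop :=
  (∀ i j, A i j = A j i) ∧
  (∀ i j, v i + ∑ l ∈ Finset.Iic j, A i l = 0 ∨ v i + ∑ l ∈ Finset.Iic j, A i l = 1) ∧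
  ∀ i, v i + ∑ l, A i l = 1

/-- The model at the homogeneous point counts matrices. -/
def S_CNTA : Prop := ∀ (k : ℕ) (v : Fin k → Bool),
  ((Nat.card {A : Matrix (Fin k) (Fin k) ℤ // SymOK k (fun i => if v i then 1 else 0) A ∧
      ∀ i, A i i = 0} : ℕ) : ℚ) = Ef (List.replicate k 0) (List.ofFn v) ∧
  ((Nat.card {A : Matrix (Fin k) (Fin k) ℤ // SymOK k (fun i => if v i then 1 else 0) A ∧
      ∃ d, A d d ≠ 0 ∧ ∀ i, i ≠ d → A i i = 0} : ℕ) : ℚ) = Wf (List.replicate k 0) (List.ofFn v)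

/-- The set of the frozen statement. -/
def S_CNTB : Prop := ∀ n : ℕ,
  Nat.card {A : Matrix (Fin (2 * n + 1)) (Fin (2 * n + 1)) ℤ //
          (∀ i j, A i j = -1 ∨ A i j = 0 ∨ A i j = 1) ∧
          (∀ i k, (∑ j ∈ Finset.Iic k, A i j) = 0 ∨ (∑ j ∈ Finset.Iic k, A i j) = 1) ∧
          (∀ i, (∑ j, A i j) = 1) ∧
          (∀ j k, (∑ i ∈ Finset.Iic k, A i j) = 0 ∨ (∑ i ∈ Finset.Iic k, A i j) = 1) ∧
          (∀ j, (∑ i, A i j) = 1) ∧
          (∀ i j, A i j = A j i) ∧
          (∃ d : Fin (2 * n + 1), ∀ i, i ≠ d → A i i = 0)} =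
  Nat.card {A : Matrix (Fin (2 * n + 1)) (Fin (2 * n + 1)) ℤ //
    SymOK (2 * n + 1) (fun _ => 0) A ∧ ∃ d, A d d ≠ 0 ∧ ∀ i, i ≠ d → A i i = 0}

/-! ### Part B: interpolation -/

/-- Pfaffian of the matrix `g (x i) (x j)`. -/
def pfG {α K : Type*} [CommRing K] (g : α → α → K) (m : ℕ) (x : Fin m → α) : K :=
  pf m (Matrix.of fun i j => g (x i) (x j))

/-- Expansion along the first row. -/
theorem pfG_cons {α K : Type*} [CommRing K] (g : α → α → K) (m : ℕ) (a : α)
    (y : Fin (m + 1) → α) : pfG g (m + 2) (Fin.cons a y : Fin (m + 2) → α) =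
      ∑ j : Fin (m + 1), (-1) ^ (j : ℕ) * g a (y j) * pfG g m (fun k => y (j.succAbove k)) := by
  unfold pfG
  simp only [pf]
  apply Finset.sum_congr rfl
  intro j _
  rfl

/-- The Vandermonde product. -/
def Van {K : Type*} [CommRing K] {n : ℕ} (x : Fin n → K) : K :=
  ∏ i, ∏ j ∈ Finset.Ioi i, (x j - x i)

/-- Product over pairs. -/
def PP {α K : Type*} [CommRing K] (D : α → α → K) {n : ℕ} (x : Fin n → α) : K :=
  ∏ i, ∏ j ∈ Finset.Ioi i, D (x i) (x j)

/-- The denominator `(1 - x y) (1 - x - y)`. -/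
def Dd {K : Type*} [CommRing K] (x y : K) : K := (1 - x * y) * (1 - x - y)

/-- The kernel `(y - x) / ((1 - x y) (1 - x - y))`. -/
def gK {K : Type*} [Field K] (x y : K) : K := (y - x) / Dd x y

/-- The kernel with one more point `none`. -/
def gO {K : Type*} [Field K] : Option K → Option K → K
  | some x, some y => gK x y
  | some x, none => 1 / (1 - 2 * x)
  | none, some x => - (1 / (1 - 2 * x))
  | none, none => 0

/-- the vector `x` followed by `none` -/
def addN {α : Type*} {n : ℕ} (x : Fin n → α) : Fin (n + 1) → Option α :=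
  Fin.snoc (α := fun _ => Option α) (fun i => some (x i)) none

/-- Generic position. -/
def Gen {K : Type*} [CommRing K] {n : ℕ} (x : Fin n → K) : Prop :=
  (∀ i, x i ≠ 0 ∧ 2 * x i ≠ 1 ∧ x i * x i ≠ 1 ∧ x i ≠ 2) ∧
  ∀ i j, i ≠ j → x i ≠ x j ∧ x i * x j ≠ 1 ∧ 1 - x i - x j ≠ 0

/-- Alternation. -/
def S_ALT : Prop := ∀ (K : Type) [Field K] [CharZero K] (α : Type) (g : α → α → K),
  (∀ a b, g a b = - g b a) → ∀ (m : ℕ) (x : Fin m → α), ¬ Function.Injective x → pfG g m x = 0

/-- Removing one point from the products over pairs. -/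
def S_REM : Prop := ∀ (K : Type) [CommRing K] (n : ℕ) (x : Fin (n + 1) → K) (k : Fin (n + 1)),
  Van x = (-1) ^ (k : ℕ) * (∏ j : Fin n, (x (k.succAbove j) - x k)) *
    Van (fun j => x (k.succAbove j)) ∧
  ∀ D : K → K → K, (∀ a b, D a b = D b a) →
    PP D x = (∏ j : Fin n, D (x k) (x (k.succAbove j))) * PP D (fun j => x (k.succAbove j))

/-- The Pfaffian formula, even order. -/
def S_INTE : Prop := ∀ (K : Type) [Field K] [CharZero K] (m : ℕ) (x : Fin m → K), Even m →
  Gen x → Z0 (List.ofFn x) * Van x = PP Dd x * pfG gK m x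

/-- The Pfaffian formula, odd order. -/
def S_INTO : Prop := ∀ (K : Type) [Field K] [CharZero K] (m : ℕ) (x : Fin m → K), Odd m →
  Gen x → W0 (List.ofFn x) * Van x =
    PP Dd x * (∏ i, (1 - 2 * x i)) * pfG gO (m + 1) (addN x)

/-! ### Part C: the homogeneous limit -/

open Pool.Agent.W223.Osasm in
/-- The limit kernel. -/
noncomputable def gC : Option ℕ → Option ℕ → ℚ
  | some a, some b => c a b
  | some a, none => 2 ^ a
  | none, some a => - 2 ^ a
  | none, none => 0

/-- The exponent vector `(0, 1, ..., m - 1)`. -/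
noncomputable def e0 (m : ℕ) : Fin m →₀ ℕ := Finsupp.equivFunOnFinite.symm fun i => (i : ℕ)

open MvPowerSeries in
open Pool.Agent.W223.Osasm in
/-- Coefficients of the kernel in several variables. -/
def S_SER : Prop := ∀ (m : ℕ) (i j : Fin m), i ≠ j → ∀ F : MvPowerSeries (Fin m) ℚ,
  F * ((1 - X i * X j) * (1 - X i - X j)) = X j - X i →
  ∀ d : Fin m →₀ ℕ, coeff d F = if (∀ k, k ≠ i → k ≠ j → d k = 0) then c (d i) (d j) else 0

open MvPowerSeries in
/-- Coefficient of `X_0 ^ 0 X_1 ^ 1 ...` in a Pfaffian of power series. -/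
def S_COEF : Prop := ∀ (m : ℕ)
  (g : Option (Fin m) → Option (Fin m) → MvPowerSeries (Fin m) ℚ),
  (∀ a b, g a b = - g b a) →
  (∀ i j, i ≠ j → ∀ d : Fin m →₀ ℕ, coeff d (g (some i) (some j)) =
    if (∀ k, k ≠ i → k ≠ j → d k = 0) then gC (some (d i)) (some (d j)) else 0) →
  (∀ i, ∀ d : Fin m →₀ ℕ, coeff d (g (some i) none) =
    if (∀ k, k ≠ i → d k = 0) then 2 ^ (d i) else 0) →
  ∀ U : MvPowerSeries (Fin m) ℚ,
  coeff (e0 m) (U * pfG g (m + 1) (addN (fun i : Fin m => i))) =
    constantCoeff U * pfG gC (m + 1) (addN (fun i : Fin m => (i : ℕ)))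

open MvPowerSeries in
/-- The same coefficient in a multiple of the Vandermonde product. -/
def S_VC : Prop := ∀ (m : ℕ) (F : MvPowerSeries (Fin m) ℚ),
  coeff (e0 m) (F * Van (fun i : Fin m => (X i : MvPowerSeries (Fin m) ℚ))) = constantCoeff F

/-- The homogeneous limit. -/
def S_LIM : Prop := ∀ n : ℕ, W0 (List.replicate (2 * n + 1) (0 : ℚ)) =
  pfG gC (2 * n + 2) (addN (fun i : Fin (2 * n + 1) => (i : ℕ)))

/-! ### Part D: the evaluation -/

open Polynomial

/-- The polynomials with generating function `1 / (1 - 3 z w + z ^ 2 w + z w ^ 2)`. -/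
noncomputable def NN : ℕ → ℚ[X]
  | 0 => 1
  | 1 => 3 * X - X ^ 2
  | n + 2 => (3 * X - X ^ 2) * NN (n + 1) - X * NN n

/-- The explicit polynomials. -/
noncomputable def Pe (n : ℕ) : ℚ[X] := ∑ i ∈ Finset.range (n + 1),
  C ((-1) ^ i * ((6 * n + 4).choose (2 * n + 1 - 2 * i) : ℚ) * ((2 * n + 1 + i).choose i : ℚ)) *
    X ^ i * (4 - X) ^ (n - i)

/-- The leading constant. -/
def cst (n : ℕ) : ℚ := 2 ^ (2 * n + 1) * ((4 * n + 2).choose (2 * n + 1) : ℚ)

/-- The substitution. -/
def wv (v : ℚ) : ℚ := (v - 1) ^ 2 / (v ^ 2 + v + 1)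

/-- No exponent congruent to `2` modulo `3`. -/
def Skip (E : ℚ[X]) : Prop := ∀ k : ℕ, E.coeff (3 * k + 2) = 0

def S_NV : Prop := ∀ i : ℕ, ∃ E : ℚ[X], Skip E ∧ ∀ v : ℚ,
  E.eval v = (v ^ 2 - 1) * (v - 1) ^ 2 * (v ^ 3 - 1) ^ (2 * i) * (NN i).eval (wv v)

/-- The values of the explicit polynomials. -/
def S_PE : Prop := ∀ n : ℕ, (Pe n).natDegree ≤ n ∧ (Pe n).coeff n = (-1) ^ n * cst n ∧
  (Pe n).eval 0 = 4 ^ n * ((6 * n + 4).choose (2 * n + 1) : ℚ) ∧
  (Pe n).eval 4 = (-1) ^ n * 4 ^ n * (6 * n + 4) * ((3 * n + 1).choose n : ℚ)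

/-- The explicit solution. -/
def S_M0 : Prop := ∀ n : ℕ, Skip (∑ i ∈ Finset.range (n + 1),
  C ((-1) ^ i * 3 ^ (n - i) * ((6 * n + 4).choose (2 * n + 1 - 2 * i) : ℚ) *
    ((2 * n + 1 + i).choose i : ℚ)) * (X - 1) ^ (4 * n + 3 + 2 * i) *
      (X + 1) ^ (2 * n + 1 - 2 * i))

def S_M : Prop := ∀ n : ℕ, ∃ E : ℚ[X], Skip E ∧ ∀ v : ℚ,
  E.eval v = (v ^ 2 - 1) * (v - 1) ^ (4 * n + 2) * (v ^ 2 + v + 1) ^ n * (Pe n).eval (wv v)

/-- A polynomial with few coefficients does not vanish to high order at `1`. -/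
def S_FEW : Prop := ∀ (f : ℚ[X]) (k : ℕ), f.support.card ≤ k → (X - 1) ^ k ∣ f → f = 0

/-- Uniqueness. -/
def S_U : Prop := ∀ (n : ℕ) (P Q : ℚ[X]), P.natDegree ≤ n → Q.natDegree ≤ n →
  (∃ E : ℚ[X], Skip E ∧ ∀ v : ℚ,
    E.eval v = (v ^ 2 - 1) * (v - 1) ^ (4 * n + 2) * (v ^ 2 + v + 1) ^ n * P.eval (wv v)) →
  (∃ E : ℚ[X], Skip E ∧ ∀ v : ℚ,
    E.eval v = (v ^ 2 - 1) * (v - 1) ^ (4 * n + 2) * (v ^ 2 + v + 1) ^ n * Q.eval (wv v)) →
  C (P.eval 0) * Q = C (Q.eval 0) * P

/-- The key combination. -/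
def S_L : Prop := ∀ n : ℕ, ∃ lam : ℕ → ℚ, lam n = 1 ∧
  ∑ i ∈ Finset.range (n + 1), C (lam i) * NN i = C ((cst n)⁻¹) * X ^ n * Pe n

/-- ratio of consecutive even Pfaffians -/
def hh (n : ℕ) : ℚ := ((6 * n + 4).choose (2 * n + 1) : ℚ) / (2 * ((4 * n + 2).choose (2 * n + 1) : ℚ))

/-- ratio of the odd and the even Pfaffian -/
def ff (n : ℕ) : ℚ := 2 ^ (2 * n) * (6 * n + 4) * ((3 * n + 1).choose n : ℚ) /
  (2 * ((4 * n + 2).choose (2 * n + 1) : ℚ))

open Pool.Agent.W223.Osasm in
/-- The kernel vectors. -/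
def S_KER : Prop := ∀ n : ℕ, ∃ p : ℚ[X], p.natDegree ≤ 2 * n ∧ p.coeff (2 * n) = 1 ∧
  (∀ b, b ≤ 2 * n → ∑ a ∈ Finset.range (2 * n + 1), p.coeff a * c a b = 0) ∧
  ∑ a ∈ Finset.range (2 * n + 1), p.coeff a * c a (2 * n + 1) = hh n ∧ p.eval 2 = ff n

/-- The Pfaffian as a product. -/
def S_PFK : Prop := ∀ n : ℕ, pfG gC (2 * n + 2) (addN (fun i : Fin (2 * n + 1) => (i : ℕ))) =
  ff n * ∏ k ∈ Finset.range n, hh k

/-- The closed form. -/
def S_FIN : Prop := ∀ n : ℕ, 1 ≤ n → ff n * ∏ k ∈ Finset.range n, hh k =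
  (2 : ℚ) ^ (n - 1) * ((Nat.factorial (3 * n + 2) : ℕ) : ℚ)
            / ((Nat.factorial (2 * n + 1) : ℕ) : ℚ)
          * ∏ i ∈ Finset.Icc 1 n,
              (((Nat.factorial (6 * i - 2) : ℕ) : ℚ)
                / ((Nat.factorial (2 * n + 2 * i + 1) : ℕ) : ℚ))

/-- The Pfaffian of a matrix whose last but one row has one nonzero entry. -/
def S_BLK : Prop := ∀ (m : ℕ) (A : Matrix (Fin (m + 2)) (Fin (m + 2)) ℚ),
  (∀ i j, A i j = - A j i) →
  (∀ i : Fin m, A i.castSucc.castSucc (Fin.last m).castSucc = 0) →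
  pf (m + 2) A = A (Fin.last m).castSucc (Fin.last (m + 1)) *
    pf m (A.submatrix (fun i => i.castSucc.castSucc) (fun i => i.castSucc.castSucc))

end Pool.Agent.W98.OS
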