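import Pool.Agent.W98.OS.CNTA
import Pool.Agent.W98.OS.CNTB

set_option autoImplicit false

namespace Pool.Agent.W98.OS

/-- Assembly. -/
theorem final (hL : S_LIM) (hK : S_PFK) (hF : S_FIN) :
    ∀ n : ℕ, 1 ≤ n →
      ((Nat.card {A : Matrix (Fin (2 * n + 1)) (Fin (2 * n + 1)) ℤ //
          (∀ i j, A i j = -1 ∨ A i j = 0 ∨ A i j = 1) ∧
          (∀ i k, (∑ j ∈ Finset.Iic k, A i j) = 0 ∨ (∑ j ∈ Finset.Iic k, A i j) = 1) ∧
          (∀ i, (∑ j, A i j) = 1) ∧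
          (∀ j k, (∑ i ∈ Finset.Iic k, A i j) = 0 ∨ (∑ i ∈ Finset.Iic k, A i j) = 1) ∧
          (∀ j, (∑ i, A i j) = 1) ∧
          (∀ i j, A i j = A j i) ∧
          (∃ d : Fin (2 * n + 1), ∀ i, i ≠ d → A i i = 0)} : ℕ) : ℚ)
        = (2 : ℚ) ^ (n - 1) * ((Nat.factorial (3 * n + 2) : ℕ) : ℚ)
            / ((Nat.factorial (2 * n + 1) : ℕ) : ℚ)
          * ∏ i ∈ Finset.Icc 1 n,
              (((Nat.factorial (6 * i - 2) : ℕ) : ℚ)
                / ((Nat.factorial (2 * n + 2 * i + 1) : ℕ) : ℚ)) := by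
  intro n hn
  rw [T_CNTB n]
  have h1 := (T_CNTA (2 * n + 1) (fun _ => false)).2
  have h2 : List.ofFn (fun _ : Fin (2 * n + 1) => false) = zs (2 * n + 1) := by
    unfold zs
    rw [List.ofFn_const]
  rw [h2] at h1
  have h3 : W0 (List.replicate (2 * n + 1) (0 : ℚ)) =
      Wf (List.replicate (2 * n + 1) 0) (zs (2 * n + 1)) := by
    unfold W0
    rw [List.length_replicate]
  rw [← h3, hL n, hK n, hF n hn] at h1
  rw [← h1]
  rfl

end Pool.Agent.W98.OS
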